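import Pool.Agent.Zk15.Gf1
import Pool.Agent.W418.Z.Reg

set_option autoImplicit false

/-!
Statements (not results) of the pieces: quotients of products of ordinary curves, models over the
integers.
-/

namespace Pool.Agent.Zk62.OZ

open Pool.Agent.W558 Pool.Agent.Zk15

/-- DESC: descent of smooth projective models to large finite fields. -/
def S_DESC : Prop := ∀ (κ K : Type) [Field κ] [Field K] [Algebra κ K],
    (∀ s : Finset κ, ∃ k : Subfield κ, Finite k ∧ (s : Set κ) ⊆ k) → HasSm κ K →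
    ∀ F : Subfield K, (∃ S : Finset K, Subfield.closure (S : Set K) = F) →
    F ⊔ (algebraMap κ K).fieldRange = ⊤ →
    ∃ k₁ : Subfield κ, Finite k₁ ∧ ∀ k₂ : Subfield κ, Finite k₂ → k₁ ≤ k₂ →
      ∃ _ : Algebra k₂ ↥(F ⊔ k₂.map (algebraMap κ K)), HasSm k₂ ↥(F ⊔ k₂.map (algebraMap κ K))

/-- LMS: from the charts of a log smooth model to homogeneous coordinates. -/
def S_LMS : Prop := ∀ (k K : Type) [Field k] [PerfectField k] [Field K] [Algebra k K] (T I : Type)
    [Finite T] (M : LM (⊥ : Subalgebra k K) ⊤ T I),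
    (∀ t, ∀ x : K, ∃ y ∈ M.A t, ∃ y' ∈ M.A t, y' ≠ 0 ∧ x = y / y') → HasSm k K

end Pool.Agent.Zk62.OZ
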