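import Pool.Agent.Zk62.OZ.Stm

set_option autoImplicit false

/-!
Smooth projective models and isomorphisms of fields.
-/

namespace Pool.Agent.Zk62.OZ

open Pool.Agent.Zk15

theorem HasSm.congr {k E E' : Type} [Field k] [Field E] [Algebra k E] [Field E'] [Algebra k E']
    (h : HasSm k E) (φ : E ≃ₐ[k] E') : HasSm k E' := by
  obtain ⟨N, H, h0, h1⟩ := h
  refine ⟨N, fun i => φ (H i), fun i hi => h0 i (by
    have := congrArg φ.symm hi
    simpa using this), fun i => ?_⟩
  obtain ⟨hs, hf⟩ := h1 i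
  set A := Algebra.adjoin k (Set.range fun j => H j / H i) with hA
  have e1 : Algebra.adjoin k (Set.range fun j => φ (H j) / φ (H i)) =
      A.map (φ : E →ₐ[k] E') := by
    rw [hA, AlgHom.map_adjoin, ← Set.range_comp]
    congr 2
    funext j
    simp
  rw [e1]
  let ψ : A ≃ₐ[k] A.map (φ : E →ₐ[k] E') :=
    A.equivMapOfInjective (φ : E →ₐ[k] E') φ.injective
  have hψ : ∀ a : A, ((ψ a : A.map (φ : E →ₐ[k] E')) : E') = φ a := fun a => rfl
  refine ⟨Algebra.Smooth.of_equiv ψ, ?_⟩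
  refine IsFractionRing.of_field _ _ fun z => ?_
  obtain ⟨a, b, hb, hz⟩ := IsFractionRing.div_surjective (A := A) (φ.symm z)
  refine ⟨ψ a, ψ b, ?_⟩
  have h2 := congrArg φ hz
  rw [map_div₀, AlgEquiv.apply_symm_apply] at h2
  exact h2.symm

end Pool.Agent.Zk62.OZ
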