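import Pool.Agent.Zk62.OZ.Quot

set_option autoImplicit false
set_option linter.unusedVariables false
set_option linter.unusedSectionVars false

/-!
Regular models over the integers of quotients of products of curves, after finite extensions of the
field of constants.
-/

open AlgebraicGeometry CategoryTheory

namespace Pool.Agent.Zk62.OZ

open Pool.Agent.W558 Pool.Agent.W558.WT Pool.Agent.Zk15 Pool.Agent.Zk10.Act Pool.Agent.Zk10.Sch

/-- An algebraic extension of a finite field is the union of its finite subfields. -/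
theorem exists_fin {p : ℕ} [Fact p.Prime] {κ : Type} [Field κ] [Algebra (ZMod p) κ]
    [Algebra.IsAlgebraic (ZMod p) κ] (s : Finset κ) :
    ∃ k : Subfield κ, Finite k ∧ (s : Set κ) ⊆ k := by
  classical
  let L := IntermediateField.adjoin (ZMod p) (s : Set κ)
  have hfd : FiniteDimensional (ZMod p) L :=
    IntermediateField.finiteDimensional_adjoin fun x _ =>
      (Algebra.IsAlgebraic.isAlgebraic (R := ZMod p) x).isIntegral
  refine ⟨L.toSubfield, ?_, IntermediateField.subset_adjoin _ _⟩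
  exact (Module.finite_of_finite (ZMod p) (M := L) : Finite L)

theorem main (hLMS : S_LMS) (hD : S_DESC) (p : ℕ) [Fact p.Prime] (κ : Type) [Field κ]
    [Algebra (ZMod p) κ] [IsAlgClosure (ZMod p) κ] (P C : Type) [Group P] [Finite P] [CommGroup C]
    [Finite C] (hP : IsPGroup p P) (hC : ¬ p ∣ Nat.card C) (n : ℕ) (A : Fin n → Type)
    [∀ i, CommRing (A i)] [∀ i, IsDomain (A i)] [∀ i, Algebra κ (A i)]
    [∀ i, Algebra.FiniteType κ (A i)] [∀ i, MulSemiringAction (P × C) (A i)]
    [∀ i, SMulCommClass (P × C) κ (A i)] (E : Fin n → Type) [∀ i, Field (E i)]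
    [∀ i, Algebra κ (E i)] [∀ i, Algebra (A i) (E i)] [∀ i, IsScalarTower κ (A i) (E i)]
    [∀ i, IsFractionRing (A i) (E i)]
    (hA : ∀ i, FacG p (ind (E i) (MulSemiringAction.toAlgAut (P × C) κ (A i))))
    (B : Type) [CommRing B] [IsDomain B] [Algebra κ B] [MulSemiringAction (P × C) B]
    [SMulCommClass (P × C) κ B] (j : ∀ i, A i →ₐ[κ] B) (hj : IsTP j)
    (hjG : ∀ (g : P × C) i a, g • j i a = j i (g • a))
    (K : Type) [Field K] [Algebra κ K] [Algebra (FixedPoints.subalgebra κ B (P × C)) K]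
    [IsScalarTower κ (FixedPoints.subalgebra κ B (P × C)) K]
    [IsFractionRing (FixedPoints.subalgebra κ B (P × C)) K]
    (F : Subfield K) (hF : ∃ S : Finset K, Subfield.closure (S : Set K) = F)
    (hFK : F ⊔ (algebraMap κ K).fieldRange = ⊤) :
    ∃ k₁ : Subfield κ, Finite k₁ ∧ ∀ k₂ : Subfield κ, Finite k₂ → k₁ ≤ k₂ →
      ∃ (X : Scheme.{0}) (_ : IsIntegral X) (g : X ⟶ Spec (CommRingCat.of ℤ)), IsProper g ∧
      (∀ x : X,
        (((Module.finrank (IsLocalRing.ResidueField (X.presheaf.stalk x))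
            (IsLocalRing.CotangentSpace (X.presheaf.stalk x)) : ℕ∞)) : WithBot ℕ∞)
          = ringKrullDim (X.presheaf.stalk x)) ∧
      Nonempty (X.functionField ≃+* ↥(F ⊔ k₂.map (algebraMap κ K))) := by
  have hcl : IsAlgClosed κ := IsAlgClosure.isAlgClosed (ZMod p)
  have hal : Algebra.IsAlgebraic (ZMod p) κ := IsAlgClosure.isAlgebraic
  have hch : CharP κ p := charP_of_injective_algebraMap (algebraMap (ZMod p) κ).injective p
  have h1 : HasSm κ K := hasSm_quot hLMS p κ P C hP hC n A E hA B j hj hjG K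
  obtain ⟨k₁, hk₁, h2⟩ := hD κ K (exists_fin (p := p)) h1 F hF hFK
  refine ⟨k₁, hk₁, fun k₂ hk₂ hle => ?_⟩
  obtain ⟨_, h3⟩ := h2 k₂ hk₂ hle
  exact regular_of_hasSm h3

end Pool.Agent.Zk62.OZ
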