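import Pool.Agent.Zk62.Tw.U29
import Pool.Agent.Zk62.Tw.V14
import Pool.Agent.Zk62.OZ.Cgr

set_option autoImplicit false
set_option linter.unusedVariables false
set_option linter.unusedSectionVars false

/-!
Smooth projective models of the fields of fractions of the rings of invariants of products of
curves over algebraically closed fields.
-/

namespace Pool.Agent.Zk62.OZ

open Pool.Agent.W558 Pool.Agent.W558.WT Pool.Agent.Zk15 Pool.Agent.Zk10.Act Pool.Agent.Zk10.Sch

theorem hasSm_quot (hLMS : S_LMS) (p : ℕ) [Fact p.Prime] (κ : Type) [Field κ] [IsAlgClosed κ]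
    [CharP κ p] (P C : Type) [Group P] [Finite P] [CommGroup C] [Finite C]
    (hP : IsPGroup p P) (hC : ¬ p ∣ Nat.card C) (n : ℕ) (A : Fin n → Type)
    [∀ i, CommRing (A i)] [∀ i, IsDomain (A i)] [∀ i, Algebra κ (A i)]
    [∀ i, Algebra.FiniteType κ (A i)] [∀ i, MulSemiringAction (P × C) (A i)]
    [∀ i, SMulCommClass (P × C) κ (A i)] (E : Fin n → Type) [∀ i, Field (E i)]
    [∀ i, Algebra κ (E i)] [∀ i, Algebra (A i) (E i)] [∀ i, IsScalarTower κ (A i) (E i)]
    [∀ i, IsFractionRing (A i) (E i)]
    (hA : ∀ i, FacG p (ind (E i) (MulSemiringAction.toAlgAut (P × C) κ (A i))))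
    (B : Type) [CommRing B] [IsDomain B] [Algebra κ B] [MulSemiringAction (P × C) B]
    [SMulCommClass (P × C) κ B] (j : ∀ i, A i →ₐ[κ] B) (hj : IsTP j)
    (hjG : ∀ (g : P × C) i a, g • j i a = j i (g • a))
    (K : Type) [Field K] [Algebra κ K] [Algebra (FixedPoints.subalgebra κ B (P × C)) K]
    [IsScalarTower κ (FixedPoints.subalgebra κ B (P × C)) K]
    [IsFractionRing (FixedPoints.subalgebra κ B (P × C)) K] : HasSm κ K := by
  classical
  let ρ : ∀ i, P × C →* (A i ≃ₐ[κ] A i) := fun i => MulSemiringAction.toAlgAut (P × C) κ (A i)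
  let s : P × C →* (B ≃ₐ[κ] B) := MulSemiringAction.toAlgAut (P × C) κ B
  obtain ⟨e, he, -⟩ := exists_e2 (K := E) (E := FractionRing B) hj
  obtain ⟨KG, T, I, hT, hI, M, g, Γ, hKG, hg, hF, hFr⟩ := quotM p κ n A E B j hj ρ s hP hC
    (fun i => fac_of hP hC (ρ i) rfl (hA i)) (fun g i a => hjG g i a) e he (X := Empty)
    (fun _ x => x.elim) (fun _ x => x.elim) (fun _ x => x.elim)
  have h1 : HasSm κ KG := hLMS κ KG T I M (fun t x => by
    obtain ⟨a, ha, b, hb, hb0, h⟩ := hFr t x
    exact ⟨a, ha, b, hb, hb0, by rw [h, div_eq_mul_inv]⟩)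
  have hinjB : Function.Injective (algebraMap B (FractionRing B)) :=
    IsFractionRing.injective B (FractionRing B)
  let f : FixedPoints.subalgebra κ B (P × C) →ₐ[κ] KG :=
    { toFun := fun b => ⟨algebraMap B (FractionRing B) b, (hKG _).2 fun g => by
        rw [lf_app]
        exact congrArg _ (b.2 g)⟩
      map_one' := Subtype.ext (map_one (algebraMap B (FractionRing B)))
      map_mul' := fun x y => Subtype.ext (map_mul (algebraMap B (FractionRing B)) _ _)
      map_zero' := Subtype.ext (map_zero (algebraMap B (FractionRing B)))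
      map_add' := fun x y => Subtype.ext (map_add (algebraMap B (FractionRing B)) _ _)
      commutes' := fun c => Subtype.ext
        (IsScalarTower.algebraMap_apply κ B (FractionRing B) c).symm }
  have hf : Function.Injective f := by
    intro x y hxy
    apply Subtype.ext
    exact hinjB (congrArg (fun z : KG => (z : FractionRing B)) hxy)
  let F : K →ₐ[κ] KG := IsFractionRing.liftAlgHom (K := K) hf
  have hFf : ∀ b, F (algebraMap (FixedPoints.subalgebra κ B (P × C)) K b) = f b := fun b =>
    IsFractionRing.lift_algebraMap hf b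
  have hsur : Function.Surjective F := by
    intro y
    obtain ⟨a, b, ha, hb, hb0, hy⟩ := lf_fri (K := FractionRing B) (ρ := s)
      ((hKG (y : FractionRing B)).1 y.2)
    let a' : FixedPoints.subalgebra κ B (P × C) := ⟨a, ha⟩
    let b' : FixedPoints.subalgebra κ B (P × C) := ⟨b, hb⟩
    refine ⟨algebraMap _ K a' / algebraMap _ K b', ?_⟩
    rw [map_div₀, hFf, hFf]
    have hb1 : f b' ≠ 0 := by
      intro h
      apply hb0
      apply hinjB
      rw [map_zero]
      exact congrArg (fun z : KG => (z : FractionRing B)) h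
    rw [div_eq_iff hb1]
    apply Subtype.ext
    exact hy.symm
  let φ : K ≃ₐ[κ] KG := AlgEquiv.ofBijective F ⟨F.toRingHom.injective, hsur⟩
  exact HasSm.congr h1 φ.symm

end Pool.Agent.Zk62.OZ
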